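import Pool.Agent.Helper94.PU.Sheet
open MeasureTheory Metric Set Filter Topology Real
open scoped ENNReal NNReal

namespace H11ST
namespace PU
namespace X95

theorem in_left {W : Type*} [TopologicalSpace W] {I u v : Set W} (hI : IsPreconnected I)
    (hu : IsClosed u) (hv : IsClosed v) (hcov : I ⊆ u ∪ v) (hd : Disjoint u v) {p : W} (hp : p ∈ I)
    (hpu : p ∈ u) : I ⊆ u := by
  have hem : I ∩ (u ∩ v) = ∅ := by
    rw [disjoint_iff_inter_eq_empty.1 hd, inter_empty]
  rcases isPreconnected_iff_subset_of_disjoint_closed.1 hI u v hu hv hcov hem with h | h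
  · exact h
  · exact absurd (h hp) (disjoint_left.1 hd hpu)

theorem sep {W : Type*} [TopologicalSpace W] {X T J Z K : Set W} {a b : W}
    (hX : IsPreconnected X) (hT : IsClosed T) (hJ : IsClosed J) (hTX : T ⊆ X) (hXT : X ⊆ T ∪ J)
    (haT : a ∈ T) (haJ : a ∈ J) (hTJ : ∀ z ∈ T, z ∈ J → z = a ∨ z = b) (hZ : IsClosed Z)
    (hK : IsClosed K) (hcov : T ⊆ Z ∪ K) (hd : Disjoint Z K) (ha : a ∉ Z) (hb : b ∉ Z) :
    ∀ z ∈ T, z ∉ Z := by
  intro z hz hzZ
  have hc : X ⊆ (T ∩ Z) ∪ ((T ∩ K) ∪ J) := by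
    intro w hw
    rcases hXT hw with h1 | h1
    · rcases hcov h1 with h2 | h2
      · exact Or.inl ⟨h1, h2⟩
      · exact Or.inr (Or.inl ⟨h1, h2⟩)
    · exact Or.inr (Or.inr h1)
  obtain ⟨w, hw, ⟨hwT, hwZ⟩, hw2⟩ := isPreconnected_closed_iff.1 hX (T ∩ Z) ((T ∩ K) ∪ J)
    (hT.inter hZ) ((hT.inter hK).union hJ) hc ⟨z, hTX hz, hz, hzZ⟩ ⟨a, hTX haT, Or.inr haJ⟩
  rcases hw2 with h2 | h2
  · exact disjoint_left.1 hd hwZ h2.2
  · rcases hTJ w hwT h2 with rfl | rfl
    · exact ha hwZ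
    · exact hb hwZ

theorem split1 {W : Type*} [TopologicalSpace W] {X T J I Q : Set W} {a b c d : W}
    (hX : IsPreconnected X) (hT : IsClosed T) (hJ : IsClosed J) (hTX : T ⊆ X) (hXT : X ⊆ T ∪ J)
    (haT : a ∈ T) (haJ : a ∈ J) (hTJ : ∀ z ∈ T, z ∈ J → z = a ∨ z = b)
    (hI : IsClosed I) (hIp : IsPreconnected I) (haI : a ∈ I) (hcI : c ∈ I)
    (hQ : IsPreconnected Q) (hQT : Q ⊆ T) (hcQ : c ∈ Q) (hdQ : d ∈ Q)
    (hn : ¬ IsPreconnected (T ∪ I)) :
    ∃ u v : Set W, IsClosed u ∧ IsClosed v ∧ T ⊆ u ∪ v ∧ Disjoint u v ∧ a ∈ u ∧ c ∈ u ∧ d ∈ u ∧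
      b ∈ v := by
  have main : ∀ u v : Set W, IsClosed u → IsClosed v → T ∪ I ⊆ u ∪ v → Disjoint u v →
      ¬ T ∪ I ⊆ u → a ∈ u → ∃ u v : Set W, IsClosed u ∧ IsClosed v ∧ T ⊆ u ∪ v ∧ Disjoint u v ∧
        a ∈ u ∧ c ∈ u ∧ d ∈ u ∧ b ∈ v := by
    intro u v hu hv hcov hd h1 hau
    have hIu : I ⊆ u := in_left hIp hu hv (subset_union_right.trans hcov) hd haI hau
    have hQu : Q ⊆ u := in_left hQ hu hv ((hQT.trans subset_union_left).trans hcov) hd hcQ (hIu hcI)
    have hTc : T ⊆ u ∪ v := subset_union_left.trans hcov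
    refine ⟨u, v, hu, hv, hTc, hd, hau, hIu hcI, hQu hdQ, ?_⟩
    by_contra hbv
    have hav : a ∉ v := disjoint_left.1 hd hau
    have key := sep hX hT hJ hTX hXT haT haJ hTJ hv hu (by rwa [union_comm v u]) hd.symm hav hbv
    apply h1
    rintro z (hz | hz)
    · exact (hTc hz).resolve_right (key z hz)
    · exact hIu hz
  rw [isPreconnected_iff_subset_of_fully_disjoint_closed (hT.union hI)] at hn
  push Not at hn
  obtain ⟨u, v, hu, hv, hcov, hd, h1, h2⟩ := hn
  rcases hcov (Or.inl haT) with h | h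
  · exact main u v hu hv hcov hd h1 h
  · exact main v u hv hu (by rwa [union_comm v u]) hd.symm h2 h

theorem one_conn {W : Type*} [TopologicalSpace W] {X T J I I' Q : Set W} {a b c d : W}
    (hX : IsPreconnected X) (hT : IsClosed T) (hJ : IsClosed J) (hTX : T ⊆ X) (hXT : X ⊆ T ∪ J)
    (haT : a ∈ T) (haJ : a ∈ J) (hbT : b ∈ T) (hbJ : b ∈ J)
    (hTJ : ∀ z ∈ T, z ∈ J → z = a ∨ z = b)
    (hI : IsClosed I) (hIp : IsPreconnected I) (haI : a ∈ I) (hcI : c ∈ I)
    (hI' : IsClosed I') (hIp' : IsPreconnected I') (hbI : b ∈ I') (hdI : d ∈ I')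
    (hQ : IsPreconnected Q) (hQT : Q ⊆ T) (hcQ : c ∈ Q) (hdQ : d ∈ Q) :
    IsPreconnected (T ∪ I) ∨ IsPreconnected (T ∪ I') := by
  by_contra hcon
  push Not at hcon
  obtain ⟨u, v, hu, hv, hcov, hd, hau, hcu, hdu, hbv⟩ :=
    split1 (b := b) hX hT hJ hTX hXT haT haJ hTJ hI hIp haI hcI hQ hQT hcQ hdQ hcon.1
  obtain ⟨u', v', hu', hv', hcov', hd', hbu', hdu', hcu', hav'⟩ :=
    split1 (a := b) (b := a) (c := d) (d := c) hX hT hJ hTX hXT hbT hbJ
      (fun z h1 h2 => (hTJ z h1 h2).symm) hI' hIp' hbI hdI hQ hQT hdQ hcQ hcon.2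
  refine sep (Z := u ∩ u') (K := v ∪ v') hX hT hJ hTX hXT haT haJ hTJ (hu.inter hu')
    (hv.union hv') ?_ ?_ ?_ ?_ c (hQT hcQ) ⟨hcu, hcu'⟩
  · intro z hz
    rcases hcov hz with h1 | h1
    · rcases hcov' hz with h2 | h2
      · exact Or.inl ⟨h1, h2⟩
      · exact Or.inr (Or.inr h2)
    · exact Or.inr (Or.inl h1)
  · rw [disjoint_left]
    rintro z ⟨h1, h2⟩ (h3 | h3)
    · exact disjoint_left.1 hd h1 h3
    · exact disjoint_left.1 hd' h2 h3
  · intro h
    exact disjoint_left.1 hd' h.2 hav'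
  · intro h
    exact disjoint_left.1 hd h.1 hbv

variable {A S : Set (E 2)} {a b : E 2}

theorem open_sub (ha : a ∈ ball (0 : E 2) 1) (hb : b ∈ ball (0 : E 2) 1) :
    segment ℝ a b ⊆ ball (0 : E 2) 1 := (convex_ball (0 : E 2) 1).segment_subset ha hb

/-- the open segment is relatively open in `S` -/
theorem closed_rest (hS : IsClosed S) (hab : a ≠ b)
    (hO : ∀ v ∈ openSegment ℝ a b, ∃ δ > 0, S ∩ ball v δ ⊆ segment ℝ a b) :
    IsClosed (S \ openSegment ℝ a b) := by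
  rw [← isOpen_compl_iff, Metric.isOpen_iff]
  intro z hz
  by_cases hzS : z ∈ S
  · have hzO : z ∈ openSegment ℝ a b := by
      by_contra h
      exact hz ⟨hzS, h⟩
    obtain ⟨δ, hδ, hsub⟩ := hO z hzO
    have hza : z ≠ a := by
      rintro rfl
      exact hab (left_mem_openSegment_iff.1 hzO)
    have hzb : z ≠ b := by
      rintro rfl
      exact hab (right_mem_openSegment_iff.1 hzO)
    refine ⟨min δ (min (dist z a) (dist z b)), lt_min hδ (lt_min (dist_pos.2 hza) (dist_pos.2 hzb)),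
      ?_⟩
    intro w hw hwr
    rw [mem_ball, dist_comm] at hw
    have h1 : w ∈ segment ℝ a b := hsub ⟨hwr.1, by
      rw [mem_ball, dist_comm]; exact hw.trans_le (min_le_left _ _)⟩
    rw [← insert_endpoints_openSegment] at h1
    rcases h1 with h1 | h1 | h1
    · rw [h1] at hw
      exact absurd (hw.trans_le ((min_le_right _ _).trans (min_le_left _ _))) (lt_irrefl _)
    · rw [h1] at hw
      exact absurd (hw.trans_le ((min_le_right _ _).trans (min_le_right _ _))) (lt_irrefl _)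
    · exact hwr.2 h1
  · obtain ⟨δ, hδ, hsub⟩ := Metric.isOpen_iff.1 hS.isOpen_compl z hzS
    exact ⟨δ, hδ, fun w hw hwr => hsub hw hwr.1⟩

theorem open_meas (a b : E 2) : edist a b ≤ μH[1] (openSegment ℝ a b) := by
  have : NullSingletonClass (μH[1] : Measure (E 2)) :=
    Measure.nullSingletonClass_hausdorff _ one_pos
  rw [← hausdorffMeasure_segment, ← insert_endpoints_openSegment]
  rw [measure_congr (insert_ae_eq_self a _), measure_congr (insert_ae_eq_self b _)]

/-- length comparison for a new segment -/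
theorem comp_seg (L : LocAdm A S 0 1) (hab : a ≠ b)
    (ha : a ∈ ball (0 : E 2) 1) (hb : b ∈ ball (0 : E 2) 1) (hs : segment ℝ a b ⊆ S)
    (hO : ∀ v ∈ openSegment ℝ a b, ∃ δ > 0, S ∩ ball v δ ⊆ segment ℝ a b) {p q : E 2}
    (hp : p ∈ ball (0 : E 2) 1) (hq : q ∈ ball (0 : E 2) 1)
    (hc : IsPreconnected (((S ∪ A) \ openSegment ℝ a b) ∪ segment ℝ p q)) :
    dist a b ≤ dist p q := by
  have hOb : openSegment ℝ a b ⊆ ball (0 : E 2) 1 :=
    (openSegment_subset_segment ℝ a b).trans (open_sub ha hb)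
  have hIb : segment ℝ p q ⊆ ball (0 : E 2) 1 := open_sub hp hq
  have hOS : openSegment ℝ a b ⊆ S := (openSegment_subset_segment ℝ a b).trans hs
  set T : Set (E 2) := (S \ openSegment ℝ a b) ∪ segment ℝ p q with hT
  have hIc : IsClosed (segment ℝ p q) := seg_closed p q
  have hTc : IsClosed T := (closed_rest L.hS hab hO).union hIc
  have hTA : T ∪ A = ((S ∪ A) \ openSegment ℝ a b) ∪ segment ℝ p q := by
    ext z
    constructor
    · rintro ((h | h) | h)
      · exact Or.inl ⟨Or.inl h.1, h.2⟩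
      · exact Or.inr h
      · exact Or.inl ⟨Or.inr h, fun h' => L.far z h (hOb h')⟩
    · rintro (⟨h | h, h'⟩ | h)
      · exact Or.inl (Or.inl ⟨h, h'⟩)
      · exact Or.inr h
      · exact Or.inl (Or.inr h)
  have hTAc : IsConnected (T ∪ A) := by
    rw [hTA]
    exact ⟨⟨p, Or.inr (left_mem_segment ℝ p q)⟩, hc⟩
  have hTr : T \ ball (0 : E 2) 1 = S \ ball (0 : E 2) 1 := by
    ext z
    constructor
    · rintro ⟨h | h, h'⟩
      · exact ⟨h.1, h'⟩
      · exact absurd (hIb h) h'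
    · rintro ⟨h, h'⟩
      exact ⟨Or.inl ⟨h, fun hh => h' (hOb hh)⟩, h'⟩
  have h1 := L.minim T hTc hTAc hTr
  have hfin : μH[1] ((S \ openSegment ℝ a b) ∩ ball (0 : E 2) 1) ≠ ∞ :=
    ne_top_of_le_ne_top L.fin (measure_mono (inter_subset_inter_left _ sdiff_subset))
  have h2 : μH[1] ((S \ openSegment ℝ a b) ∩ ball (0 : E 2) 1) + μH[1] (openSegment ℝ a b) ≤
      μH[1] (S ∩ ball (0 : E 2) 1) := by
    rw [← measure_union' (μ := μH[1]) _
      ((closed_rest L.hS hab hO).measurableSet.inter measurableSet_ball)]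
    · refine measure_mono ?_
      rintro z (h | h)
      · exact ⟨h.1.1, h.2⟩
      · exact ⟨hOS h, hOb h⟩
    · rw [disjoint_left]
      rintro z h h'
      exact h.1.2 h'
  have h3 : μH[1] (T ∩ ball (0 : E 2) 1) ≤
      μH[1] ((S \ openSegment ℝ a b) ∩ ball (0 : E 2) 1) + μH[1] (segment ℝ p q) := by
    refine le_trans (measure_mono ?_) (measure_union_le _ _)
    rintro z ⟨h | h, h'⟩
    · exact Or.inl ⟨h, h'⟩
    · exact Or.inr h
  have h4 : μH[1] (openSegment ℝ a b) ≤ μH[1] (segment ℝ p q) :=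
    (ENNReal.add_le_add_iff_left hfin).1 (h2.trans (h1.trans h3))
  have h5 : edist a b ≤ edist p q := by
    refine (open_meas a b).trans (h4.trans ?_)
    rw [hausdorffMeasure_segment]
  rw [edist_dist, edist_dist] at h5
  exact (ENNReal.ofReal_le_ofReal_iff dist_nonneg).1 h5

end X95

theorem exch : ST_EXCH := by
  intro A S L hA a b c d hab ha hb hc hd hs hO hcd hdis
  have hOb : openSegment ℝ a b ⊆ ball (0 : E 2) 1 :=
    (openSegment_subset_segment ℝ a b).trans (X95.open_sub ha hb)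
  have hIc : ∀ p q : E 2, IsClosed (segment ℝ p q) := fun p q => seg_closed p q
  have hIp : ∀ p q : E 2, IsPreconnected (segment ℝ p q) := fun p q =>
    (convex_segment p q).isPreconnected
  have hTc : IsClosed ((S ∪ A) \ openSegment ℝ a b) := by
    have e : (S ∪ A) \ openSegment ℝ a b = (S \ openSegment ℝ a b) ∪ A := by
      ext z
      constructor
      · rintro ⟨h | h, h'⟩
        · exact Or.inl ⟨h, h'⟩
        · exact Or.inr h
      · rintro (h | h)
        · exact ⟨Or.inl h.1, h.2⟩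
        · exact ⟨Or.inr h, fun h' => L.far z h (hOb h')⟩
    rw [e]
    exact (X95.closed_rest L.hS hab hO).union hA
  have haO : a ∉ openSegment ℝ a b := fun h => hab (left_mem_openSegment_iff.1 h)
  have hbO : b ∉ openSegment ℝ a b := fun h => hab (right_mem_openSegment_iff.1 h)
  have haT : a ∈ (S ∪ A) \ openSegment ℝ a b := ⟨Or.inl (hs (left_mem_segment ℝ a b)), haO⟩
  have hbT : b ∈ (S ∪ A) \ openSegment ℝ a b := ⟨Or.inl (hs (right_mem_segment ℝ a b)), hbO⟩
  have hQT : segment ℝ c d ⊆ (S ∪ A) \ openSegment ℝ a b := fun z hz =>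
    ⟨Or.inl (hcd hz), disjoint_left.1 hdis hz⟩
  have key := X95.one_conn (X := S ∪ A) (T := (S ∪ A) \ openSegment ℝ a b) (J := segment ℝ a b)
    (I := segment ℝ a c) (I' := segment ℝ b d) (Q := segment ℝ c d) (a := a) (b := b) (c := c)
    (d := d) L.conn.isPreconnected hTc (hIc a b) sdiff_subset ?_ haT (left_mem_segment ℝ a b) hbT
    (right_mem_segment ℝ a b) ?_ (hIc a c) (hIp a c) (left_mem_segment ℝ a c)
    (right_mem_segment ℝ a c) (hIc b d) (hIp b d) (left_mem_segment ℝ b d)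
    (right_mem_segment ℝ b d) (hIp c d) hQT (left_mem_segment ℝ c d) (right_mem_segment ℝ c d)
  · rcases key with h | h
    · exact (X95.comp_seg L hab ha hb hs hO ha hc h).trans (le_max_left _ _)
    · exact (X95.comp_seg L hab ha hb hs hO hb hd h).trans (le_max_right _ _)
  · intro z hz
    by_cases h : z ∈ openSegment ℝ a b
    · exact Or.inr (openSegment_subset_segment ℝ a b h)
    · exact Or.inl ⟨hz, h⟩
  · intro z hz hz'
    rw [← insert_endpoints_openSegment] at hz'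
    rcases hz' with h | h | h
    · exact Or.inl h
    · exact Or.inr h
    · exact absurd h hz.2

end PU
end H11ST
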